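import Pool.Agent.R269.SDUncond

/-!
# MP_45e0c4_an, Q1: no infinite-dimensional Banach space with an unconditional basis has the super
alternative Daugavet property
-/

set_option autoImplicit false

open Filter Topology

namespace Pool.Agent.Results.MP_45e0c4_an.NoUnconditionalBasis

open Pool.Agent.R269.SD

section
variable {𝕜 X : Type*} [RCLike 𝕜] [NormedAddCommGroup X] [NormedSpace 𝕜 X]

/-- The Schauder basis `b` is unconditional: every convergent series `∑ a n • b n` converges
unconditionally. -/
def IsUnconditional (b : SchauderBasis 𝕜 X) : Prop :=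
  ∀ a : ℕ → 𝕜, (∃ x : X, Tendsto (fun n => ∑ i ∈ Finset.range n, a i • b i) atTop (𝓝 x)) →
    Summable fun n => a n • b n

theorem hasSum_of_unconditional {b : SchauderBasis 𝕜 X} (hb : IsUnconditional b) (x : X) :
    HasSum (fun n => b.coord n x • b n) x := by
  have h1 : Tendsto (fun n => ∑ i ∈ Finset.range n, b.coord i x • b i) atTop (𝓝 x) := by
    have h := SchauderBasis.tendsto_proj b x
    simpa only [SchauderBasis.proj_apply] using h
  have h2 := (hb (fun n => b.coord n x) ⟨x, h1⟩).hasSum
  rwa [tendsto_nhds_unique h2.tendsto_sum_nat h1] at h2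

end

/-- Let `X` be an infinite-dimensional Banach space, real or complex. If `X` has an unconditional
Schauder basis then `X` does not have the super alternative Daugavet property. More generally this
holds if there are vectors `e i` and functionals `c i` (`i` in any index set, not necessarily
biorthogonal) such that every `x` is the unconditional sum of the `c i x • e i`. -/
theorem result (𝕜 X : Type*) [RCLike 𝕜] [NormedAddCommGroup X] [NormedSpace 𝕜 X]
    [CompleteSpace X] (hX : ¬ FiniteDimensional 𝕜 X) :
    (∀ b : SchauderBasis 𝕜 X, IsUnconditional b → ¬ SuperADP 𝕜 X) ∧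
    ∀ (β : Type*) (e : β → X) (c : β → StrongDual 𝕜 X),
      (∀ x, HasSum (fun i => c i x • e i) x) → ¬ SuperADP 𝕜 X :=
  ⟨fun b hb => no_superADP (e := b.basis) (c := b.coord) hX (hasSum_of_unconditional hb),
    fun _ e c hexp => no_superADP (e := e) (c := c) hX hexp⟩

end Pool.Agent.Results.MP_45e0c4_an.NoUnconditionalBasis
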